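import Pool.Agent.MP_3b5bbf_co.Sb.D8

/-! An 8 × 8 checkerboard larger than the paper-boundary value 2/8. -/

open Pool.Agent.MP_3b5bbf_co

/-- A checkerboard with 8 × 8 cells and side 2/7, folded from the unit square. -/
theorem Pool.Agent.Results.MP_3b5bbf_co.EightByEight.result :
    ∃ F : FlatFolding, F.Checkerboard 8 (2 / 7) := by
  have := Sb.d8_board
  norm_num at this ⊢
  exact this
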