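import Pool.Agent.Mg.F3b5bbfq.Gb66ca1

open Pool.Agent.MP_3b5bbf_co

theorem Pool.Agent.Results.MP_3b5bbf_co.LogUpperBound.result :
    ∀ k : ℕ, 2 ≤ k → ∀ (F : FlatFolding) (c : ℝ) (white : ℕ → ℕ → Prop),
      F.f '' square 1 = square c →
      (∀ a b : ℕ, a + 1 < k → b < k → (white (a + 1) b ↔ ¬ white a b)) →
      (∀ i, F.IsTop i → ∀ a < k, ∀ b < k, ∀ z ∈ F.f '' tri (F.v i),
        a * (c / k) < z.re → z.re < (a + 1) * (c / k) → b * (c / k) < z.im →
        z.im < (b + 1) * (c / k) → (F.WhiteUp i ↔ white a b)) →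
      c ≤ 33000 / Real.logb 2 k := by
  intro k hk F c white im alt top
  have k1 : (1 : ℝ) < k := by exact_mod_cast hk
  have l0 : 0 < Real.logb 2 k := Real.logb_pos (by norm_num) k1
  rcases le_or_gt c 0 with hc | hc
  · exact hc.trans (by positivity)
  have c4 := Up.side_le im
  obtain ⟨β, col, mk⟩ := Up.exists_marks hc (by omega) white im alt top
  have a1 : k / 64 < 2 ^ (Nat.log 2 (k / 64) + 1) := Nat.lt_pow_succ_log_self one_lt_two _
  have a2 : Nat.log 2 (k / 64) * c ≤ 32480 := by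
    by_cases e : k / 64 = 0
    · simp [e]
    · exact Up.all_scales hc mk (by have := Nat.pow_log_le_self 2 e; omega)
  generalize Nat.log 2 (k / 64) = n at *
  have a3 : Real.logb 2 k ≤ n + 7 := by
    rw [Real.logb_le_iff_le_rpow (by norm_num) (by linarith)]
    have : k ≤ 2 ^ (n + 7) := by rw [pow_succ] at a1; rw [pow_add]; omega
    have : (k : ℝ) ≤ 2 ^ (n + 7) := by exact_mod_cast this
    rw [← Real.rpow_natCast] at this
    exact_mod_cast this
  rw [le_div_iff₀ l0]
  nlinarith
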