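import Pool.Agent.Mg.F3b5bbfq.Ge4c0ea
import Pool.Agent.Mg.F3b5bbfq.G027087

open Pool.Agent.MP_3b5bbf_co

theorem Pool.Agent.Results.MP_3b5bbf_co.SeamlessLogLower.result :
    ∀ k : ℕ, 2 ≤ k → ∃ (F : FlatFolding) (c : ℝ),
      1 / (8 * Real.logb 2 k + 19) ≤ c ∧ F.Checkerboard k c ∧ S.Seamless F k c := by
  intro k hk
  obtain ⟨n, N, h1, N0, N1, bd⟩ := Sm.board_all Sm.pillow k hk
  obtain ⟨F, hF⟩ := Sm.bridge N0 (by omega) bd
  refine ⟨F, _, ?_, hF⟩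
  have k0 : (0 : ℝ) < k := by positivity
  have n0 : (0 : ℝ) < N := by exact_mod_cast N0
  have n1 : (N : ℝ) ≤ 2 * k * (67 + 20 * n) := by exact_mod_cast N1
  have l : (n : ℝ) + 1 ≤ Real.logb 2 k := by
    rw [Real.le_logb_iff_rpow_le (by norm_num) k0]
    have : (2 : ℝ) ^ (n + 1) ≤ k := by exact_mod_cast h1
    rw [← Real.rpow_natCast] at this
    exact_mod_cast this
  have n2 : (0 : ℝ) ≤ n := by positivity
  rw [div_le_div_iff₀ (by linarith) n0]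
  nlinarith
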