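import Pool.Agent.Mg.F3b5bbfq.Ge8e19d
import Pool.Agent.Mg.F3b5bbfq.G36afbf

/-! The largest seamless 2 × 2 checkerboard folded from the unit square has side exactly 2/3. -/

open Pool.Agent.MP_3b5bbf_co

/-- There is a seamless 2 × 2 checkerboard of side 2/3, and a folding in which each of the four
cells is covered by an uncreased square of the right colour has side at most 2/3. -/
theorem Pool.Agent.Results.MP_3b5bbf_co.SeamlessTwo.result :
    (∃ F : FlatFolding, F.Checkerboard 2 (2 / 3) ∧ S.Seamless F 2 (2 / 3)) ∧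
      ∀ (F : FlatFolding) (c : ℝ), S.Layered F 2 c → c ≤ 2 / 3 :=
  ⟨S.lower, S.upper⟩
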